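import Pool.Agent.W223.AC.Stms

/-!
# AC-HTG: heights of values of functions
-/

set_option autoImplicit false

namespace Pool.Agent.W410.AC

open Polynomial IsDedekindDomain NumberField
open Pool.Agent.W223.AC
open Pool.Agent.W125.CV

theorem phi_psi {A : Type} [CommRing A] [Algebra ℚ[X] A] {L : Type} [Field L] (φ : A →+* L)
    (q : ℤ[X]) (D : ℕ) (hq : q.natDegree ≤ D) :
    φ (psi A q) = ∑ j ∈ Finset.range (D + 1), ((q.coeff j : ℤ) : L) * φ (tt A) ^ j := by
  have h : φ.comp (psi A) = eval₂RingHom (Int.castRingHom L) (φ (tt A)) := by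
    apply Polynomial.ringHom_ext
    · intro n
      simp
    · simp [psi, tt]
  have h2 : φ (psi A q) = eval₂ (Int.castRingHom L) (φ (tt A)) q :=
    congrArg (fun F : ℤ[X] →+* L => F q) h
  rw [h2, eval₂_eq_sum_range' _ (Nat.lt_succ_of_le hq)]
  rfl

variable {L : Type} [Field L] [NumberField L]

theorem fv_add (v : HeightOneSpectrum (𝓞 L)) (a b : L) :
    fv v (a + b) ≤ max (fv v a) (fv v b) := by
  have h2 := HeightOneSpectrum.adicAbv_add_le_max L v a b
  rw [← FinitePlace.norm_embedding, ← FinitePlace.norm_embedding,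
    ← FinitePlace.norm_embedding] at h2
  exact h2

theorem fv_sum_le {ι : Type} (v : HeightOneSpectrum (𝓞 L)) (s : Finset ι) (f : ι → L) (B : ℝ)
    (hB : 0 ≤ B) (h : ∀ i ∈ s, fv v (f i) ≤ B) : fv v (∑ i ∈ s, f i) ≤ B := by
  classical
  induction s using Finset.induction_on with
  | empty => rw [Finset.sum_empty, map_zero]; exact hB
  | insert a s ha ih =>
    rw [Finset.sum_insert ha]
    exact (fv_add v _ _).trans (max_le (h a (Finset.mem_insert_self _ _))
      (ih (fun i hi => h i (Finset.mem_insert_of_mem hi))))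

theorem t (hG : StmtGROW) : StmtHTG := by
  classical
  intro A _ _ N ω hω
  choose c K hK hGr using fun i => hG A (ω i) (hω i)
  refine ⟨∑ i, c i, fun D p hp => ?_⟩
  set ct := ∑ i, c i with hct
  have hci : ∀ i, c i ≤ ct := fun i => Finset.single_le_sum (fun _ _ => Nat.zero_le _)
    (Finset.mem_univ i)
  set S : Fin N → ℝ := fun i => ∑ j ∈ Finset.range (D + 1), |((p i).coeff j : ℝ)| with hS
  have hS0 : ∀ i, 0 ≤ S i := fun i => Finset.sum_nonneg (fun _ _ => abs_nonneg _)
  set K' : ℝ := 1 + ∑ i, S i * K i with hK'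
  have hsum0 : 0 ≤ ∑ i, S i * K i :=
    Finset.sum_nonneg (fun i _ => mul_nonneg (hS0 i) (zero_le_one.trans (hK i)))
  have hK'1 : 1 ≤ K' := by linarith
  refine ⟨Real.log K', Real.log_nonneg hK'1, ?_⟩
  intro L _ _ φ
  set x := φ (tt A) with hx
  set g := φ (∑ i, psi A (p i) * ω i) with hg
  have hg' : g = ∑ i, φ (psi A (p i)) * φ (ω i) := by
    rw [hg, map_sum]
    simp only [map_mul]
  have hp0 : ∀ r : ℝ, (0 : ℝ) < max r 1 := fun r => lt_max_of_lt_right one_pos
  have hp1 : ∀ r : ℝ, (1 : ℝ) ≤ max r 1 := fun r => le_max_right _ _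
  -- finite places
  have hfin : ∀ v : HeightOneSpectrum (𝓞 L), max (fv v g) 1 ≤ max (fv v x) 1 ^ (D + ct) := by
    intro v
    have hm := hp1 (fv v x)
    refine max_le ?_ (one_le_pow₀ hm)
    rw [hg']
    refine fv_sum_le v _ _ _ (pow_nonneg (hp0 _).le _) (fun i _ => ?_)
    rw [map_mul, pow_add]
    refine mul_le_mul ?_ ?_ ((fv v).nonneg _) (pow_nonneg (hp0 _).le _)
    · rw [phi_psi φ (p i) D (hp i)]
      refine fv_sum_le v _ _ _ (pow_nonneg (hp0 _).le _) (fun j hj => ?_)
      rw [Finset.mem_range] at hj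
      rw [map_mul, map_pow]
      calc fv v ((p i).coeff j : L) * fv v x ^ j ≤ 1 * max (fv v x) 1 ^ j :=
            mul_le_mul (fv_int v _) (pow_le_pow_left₀ ((fv v).nonneg _) (le_max_left _ _) _)
              (pow_nonneg ((fv v).nonneg _) _) zero_le_one
        _ = max (fv v x) 1 ^ j := one_mul _
        _ ≤ max (fv v x) 1 ^ D := pow_le_pow_right₀ hm (by omega)
    · exact ((hGr i L φ).1 v).trans (pow_le_pow_right₀ hm (hci i))
  -- infinite places
  have hinf : ∀ w : InfinitePlace L, max (w g) 1 ≤ K' * max (w x) 1 ^ (D + ct) := by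
    intro w
    have hm := hp1 (w x)
    have hpow : 1 ≤ max (w x) 1 ^ (D + ct) := one_le_pow₀ hm
    have hint : ∀ n : ℤ, w (n : L) = |(n : ℝ)| := by
      intro n
      rw [← InfinitePlace.norm_embedding_eq w, map_intCast, Complex.norm_intCast]
    refine max_le ?_ (by nlinarith)
    rw [hg']
    have h1 : w (∑ i, φ (psi A (p i)) * φ (ω i)) ≤ ∑ i, w (φ (psi A (p i)) * φ (ω i)) :=
      AbsoluteValue.sum_le w.1 _ _
    refine h1.trans ?_
    have h2 : ∑ i, w (φ (psi A (p i)) * φ (ω i)) ≤ ∑ i, S i * K i * max (w x) 1 ^ (D + ct) := by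
      refine Finset.sum_le_sum (fun i _ => ?_)
      rw [map_mul, pow_add]
      have h3 : w (φ (psi A (p i))) ≤ S i * max (w x) 1 ^ D := by
        rw [phi_psi φ (p i) D (hp i)]
        have h4 : w (∑ j ∈ Finset.range (D + 1), (((p i).coeff j : ℤ) : L) * φ (tt A) ^ j) ≤
            ∑ j ∈ Finset.range (D + 1), w ((((p i).coeff j : ℤ) : L) * φ (tt A) ^ j) :=
          AbsoluteValue.sum_le w.1 _ _
        refine h4.trans ?_
        rw [hS, Finset.sum_mul]
        refine Finset.sum_le_sum (fun j hj => ?_)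
        rw [Finset.mem_range] at hj
        rw [map_mul, map_pow, hint]
        refine mul_le_mul_of_nonneg_left ?_ (abs_nonneg _)
        calc w (φ (tt A)) ^ j ≤ max (w x) 1 ^ j :=
              pow_le_pow_left₀ (apply_nonneg w _) (le_max_left _ _) _
          _ ≤ max (w x) 1 ^ D := pow_le_pow_right₀ hm (by omega)
      have h5 : w (φ (ω i)) ≤ K i * max (w x) 1 ^ ct :=
        ((hGr i L φ).2 w).trans (mul_le_mul_of_nonneg_left (pow_le_pow_right₀ hm (hci i))
          (zero_le_one.trans (hK i)))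
      calc w (φ (psi A (p i))) * w (φ (ω i)) ≤ (S i * max (w x) 1 ^ D) * (K i * max (w x) 1 ^ ct) :=
            mul_le_mul h3 h5 (apply_nonneg w _) (mul_nonneg (hS0 i) (pow_nonneg (hp0 _).le _))
        _ = S i * K i * (max (w x) 1 ^ D * max (w x) 1 ^ ct) := by ring
    refine h2.trans ?_
    rw [← Finset.sum_mul]
    exact mul_le_mul_of_nonneg_right (by linarith) (pow_nonneg (hp0 _).le _)
  -- heights
  set T : Finset (HeightOneSpectrum (𝓞 L)) := (max_support_finite g).toFinset ∪
    (max_support_finite x).toFinset with hT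
  have h1 := height_sum g T (fun v hv =>
    Finset.mem_union_left _ ((Set.Finite.mem_toFinset _).2 hv))
  have h2 := height_sum x T (fun v hv =>
    Finset.mem_union_right _ ((Set.Finite.mem_toFinset _).2 hv))
  have e1 : ∑ v ∈ T, Real.log (max (fv v g) 1) ≤
      ((D : ℝ) + ct) * ∑ v ∈ T, Real.log (max (fv v x) 1) := by
    rw [Finset.mul_sum]
    refine Finset.sum_le_sum (fun v _ => ?_)
    have := Real.log_le_log (hp0 _) (hfin v)
    rw [Real.log_pow] at this
    push_cast at this
    exact this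
  have e2 : ∑ w : InfinitePlace L, (w.mult : ℝ) * Real.log (max (w g) 1) ≤
      ((D : ℝ) + ct) * ∑ w : InfinitePlace L, (w.mult : ℝ) * Real.log (max (w x) 1) +
        Module.finrank ℚ L * Real.log K' := by
    have e3 : (Module.finrank ℚ L : ℝ) = ∑ w : InfinitePlace L, (w.mult : ℝ) := by
      rw [← InfinitePlace.sum_mult_eq]
      exact Nat.cast_sum _ _
    rw [e3, Finset.sum_mul, Finset.mul_sum, ← Finset.sum_add_distrib]
    refine Finset.sum_le_sum (fun w _ => ?_)
    have h3 := Real.log_le_log (hp0 _) (hinf w)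
    rw [Real.log_mul (by linarith) (pow_pos (hp0 _) _).ne', Real.log_pow] at h3
    push_cast at h3
    have h4 : (w.mult : ℝ) * Real.log (max (w g) 1) ≤ (w.mult : ℝ) *
        (Real.log K' + ((D : ℝ) + ct) * Real.log (max (w x) 1)) :=
      mul_le_mul_of_nonneg_left h3 (Nat.cast_nonneg _)
    linarith
  rw [h1, h2]
  linarith

end Pool.Agent.W410.AC
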